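import Mathlib

namespace Pool.Agent.H.MP_db38ce_nt

open Finset

/-- minimal multiplicative dependence of a finite family of rationals -/
def Circ {ι : Type} [Fintype ι] (a : ι → ℚ) : Prop :=
  (∃ k : ι → ℤ, (∀ i, k i ≠ 0) ∧ ∏ i, a i ^ k i = 1) ∧
  ∀ k : ι → ℤ, ∏ i, a i ^ k i = 1 → (∃ i, k i = 0) → ∀ i, k i = 0

def IsVal (φ : ℚ → ℤ) : Prop := ∀ x y : ℚ, x ≠ 0 → y ≠ 0 → φ (x * y) = φ x + φ y

theorem IsVal.one {φ : ℚ → ℤ} (h : IsVal φ) : φ 1 = 0 := by
  have := h 1 1 one_ne_zero one_ne_zero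
  rw [mul_one] at this
  omega

theorem IsVal.inv {φ : ℚ → ℤ} (h : IsVal φ) {x : ℚ} (hx : x ≠ 0) : φ x⁻¹ = - φ x := by
  have := h x x⁻¹ hx (inv_ne_zero hx)
  rw [mul_inv_cancel₀ hx, h.one] at this
  omega

theorem IsVal.div {φ : ℚ → ℤ} (h : IsVal φ) {x y : ℚ} (hx : x ≠ 0) (hy : y ≠ 0) :
    φ (x / y) = φ x - φ y := by
  rw [div_eq_mul_inv, h x y⁻¹ hx (inv_ne_zero hy), h.inv hy]; ring

theorem IsVal.pow {φ : ℚ → ℤ} (h : IsVal φ) {x : ℚ} (hx : x ≠ 0) (n : ℕ) :
    φ (x ^ n) = n * φ x := by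
  induction n with
  | zero => simp [h.one]
  | succ n ih => rw [pow_succ, h _ _ (pow_ne_zero _ hx) hx, ih]; push_cast; ring

theorem IsVal.zpow {φ : ℚ → ℤ} (h : IsVal φ) {x : ℚ} (hx : x ≠ 0) (n : ℤ) :
    φ (x ^ n) = n * φ x := by
  rcases Int.eq_nat_or_neg n with ⟨m, rfl | rfl⟩
  · rw [zpow_natCast, h.pow hx]
  · rw [zpow_neg, zpow_natCast, h.inv (pow_ne_zero _ hx), h.pow hx]; ring

theorem IsVal.prod {φ : ℚ → ℤ} (h : IsVal φ) {ι : Type} [DecidableEq ι] (s : Finset ι) (a : ι → ℚ)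
    (ha : ∀ i, a i ≠ 0) (k : ι → ℤ) :
    φ (∏ i ∈ s, a i ^ k i) = ∑ i ∈ s, k i * φ (a i) := by
  induction s using Finset.induction_on with
  | empty => simp [h.one]
  | insert i s hi ih =>
    rw [prod_insert hi, sum_insert hi, h _ _ (zpow_ne_zero _ (ha i))
      (prod_ne_zero_iff.2 fun j _ => zpow_ne_zero _ (ha j)), ih, h.zpow (ha i)]

theorem IsVal.rel {φ : ℚ → ℤ} (h : IsVal φ) {ι : Type} [Fintype ι] {a : ι → ℚ}
    (ha : ∀ i, a i ≠ 0) {k : ι → ℤ} (hk : ∏ i, a i ^ k i = 1) :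
    ∑ i, k i * φ (a i) = 0 := by
  classical
  rw [← h.prod univ a ha k, hk, h.one]

theorem isVal_padic (p : ℕ) (hp : p.Prime) : IsVal (padicValRat p) := by
  haveI := Fact.mk hp
  intro x y hx hy
  exact padicValRat.mul hx hy

theorem padic_zero (p : ℕ) (n : ℕ) (h : ¬ p ∣ n) : padicValRat p (n : ℚ) = 0 := by
  rw [padicValRat.of_nat, padicValNat.eq_zero_of_not_dvd h]; rfl

theorem padic_ne (p : ℕ) (hp : p.Prime) (n : ℕ) (hn : n ≠ 0) (h : p ∣ n) :
    padicValRat p (n : ℚ) ≠ 0 := by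
  haveI := Fact.mk hp
  rw [padicValRat.of_nat]
  have := one_le_padicValNat_of_dvd hn h
  omega

/-- every `T + u`, `1 ≤ u ≤ K`, has a private valuation -/
def Priv (K : ℕ) (T : ℕ) : Prop :=
  ∀ u, 1 ≤ u → u ≤ K → ∃ φ : ℚ → ℤ, IsVal φ ∧ φ ((T + u : ℕ) : ℚ) ≠ 0 ∧
    (∀ u', 1 ≤ u' → u' ≤ K → u' ≠ u → φ ((T + u' : ℕ) : ℚ) = 0) ∧
    ∀ c : ℕ, 1 ≤ c → c ≤ K → φ (c : ℚ) = 0

theorem priv (K s : ℕ) : Priv K (K.factorial * K.factorial * (s + 1)) := by
  intro u h1 h2
  obtain ⟨w, hw⟩ : u ∣ K.factorial := Nat.dvd_factorial h1 h2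
  have hK : 0 < K.factorial := Nat.factorial_pos K
  have hw0 : 0 < w := by
    rcases Nat.eq_zero_or_pos w with h | h
    · rw [h] at hw; omega
    · exact h
  set M := K.factorial * w * (s + 1) + 1 with hM
  have hM1 : M ≠ 1 := by
    have : 0 < K.factorial * w * (s + 1) := by positivity
    omega
  obtain ⟨p, hp, hpM⟩ := Nat.exists_prime_and_dvd hM1
  have hpK : K < p := by
    by_contra hc
    have h3 : p ∣ K.factorial := Nat.dvd_factorial hp.pos (by omega)
    have h4 : p ∣ K.factorial * w * (s + 1) := (h3.mul_right _).mul_right _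
    have h5 : p ∣ 1 := (Nat.dvd_add_right h4).1 hpM
    exact hp.one_lt.ne' (Nat.dvd_one.1 h5)
  have hT : K.factorial * K.factorial * (s + 1) + u = u * M := by
    rw [hM]; nth_rewrite 2 [hw]; ring
  have hd : p ∣ K.factorial * K.factorial * (s + 1) + u := by
    rw [hT]; exact hpM.mul_left _
  refine ⟨padicValRat p, isVal_padic p hp, padic_ne p hp _ (by omega) hd, ?_, ?_⟩
  · intro u' g1 g2 g3
    apply padic_zero
    intro hd'
    rcases lt_or_gt_of_ne g3 with g | g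
    · have h6 := Nat.dvd_sub hd hd'
      have h7 : K.factorial * K.factorial * (s + 1) + u - (K.factorial * K.factorial * (s + 1) + u')
        = u - u' := by omega
      rw [h7] at h6
      have := Nat.le_of_dvd (by omega) h6
      omega
    · have h6 := Nat.dvd_sub hd' hd
      have h7 : K.factorial * K.factorial * (s + 1) + u' - (K.factorial * K.factorial * (s + 1) + u)
        = u' - u := by omega
      rw [h7] at h6
      have := Nat.le_of_dvd (by omega) h6
      omega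
  · intro c g1 g2
    apply padic_zero
    intro hd'
    have := Nat.le_of_dvd (by omega) hd'
    omega

theorem Circ.equiv {ι κ : Type} [Fintype ι] [Fintype κ] {a : ι → ℚ} (h : Circ a) (e : κ ≃ ι) :
    Circ (fun j => a (e j)) := by
  obtain ⟨⟨k, hk, hk'⟩, h2⟩ := h
  refine ⟨⟨fun j => k (e j), fun j => hk _, ?_⟩, ?_⟩
  · rw [← hk']; exact Equiv.prod_comp e (fun i => a i ^ k i)
  · intro l hl ⟨j, hj⟩ j'
    have := h2 (fun i => l (e.symm i)) (by
      rw [← hl, ← Equiv.prod_comp e]; simp) ⟨e j, by simpa using hj⟩ (e j')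
    simpa using this

theorem Circ.ne_one {n : ℕ} (hn : 2 ≤ n) {a : Fin n → ℚ} (h : Circ a) (i : Fin n) : a i ≠ 1 := by
  intro hi
  obtain ⟨j, hj⟩ : ∃ j, j ≠ i := by
    haveI : Nontrivial (Fin n) := Fin.nontrivial_iff_two_le.2 hn
    exact exists_ne i
  have := h.2 (fun l => if l = i then 1 else 0) (by
    apply prod_eq_one
    intro l _
    by_cases hl : l = i
    · simp [hl, hi]
    · simp [hl]) ⟨j, by simp [hj]⟩ i
  simp at this

theorem Circ.inj {n : ℕ} (hn : 3 ≤ n) {a : Fin n → ℚ} (h : Circ a) (ha : ∀ i, a i ≠ 0) :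
    Function.Injective a := by
  intro i j hij
  by_contra hne
  obtain ⟨l, hl⟩ : ∃ l, l ∉ ({i, j} : Finset (Fin n)) := by
    by_contra hc
    push Not at hc
    have h1 : (univ : Finset (Fin n)) ⊆ {i, j} := fun x _ => hc x
    have h2 := card_le_card h1
    have h3 : ({i, j} : Finset (Fin n)).card ≤ 2 := card_le_two
    simp at h2
    omega
  simp only [mem_insert, mem_singleton, not_or] at hl
  have := h.2 (fun l => if l = i then 1 else if l = j then -1 else 0) (by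
    rw [← prod_subset (subset_univ ({i, j} : Finset (Fin n))), prod_pair hne]
    · have : j ≠ i := fun h => hne h.symm
      simp [this, hij, ha j]
    · intro x _ hx
      simp only [mem_insert, mem_singleton, not_or] at hx
      simp [hx.1, hx.2]) ⟨l, by simp [hl.1, hl.2]⟩ i
  simp at this

end Pool.Agent.H.MP_db38ce_nt
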