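import Pool.Agent.H.MP_db38ce_nt.A

namespace Pool.Agent.H.MP_db38ce_nt

open Finset

/-- the path family -/
def pathEl (k m : ℕ) (A B : ℕ → ℚ) (c : Fin m → ℚ) : (Fin k ⊕ Fin k) ⊕ (Bool ⊕ Fin m) → ℚ
  | Sum.inl (Sum.inl j) => A (j + 1) * B j / 3 ^ (j.1 + 1)
  | Sum.inl (Sum.inr j) => A j * B j / (2 * 3 ^ j.1)
  | Sum.inr (Sum.inl false) => A 0
  | Sum.inr (Sum.inl true) => A k
  | Sum.inr (Sum.inr i) => c i

theorem tele0 (k : ℕ) (A : ℕ → ℚ) (hA : ∀ i, A i ≠ 0) :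
    ∏ x ∈ range k, A (x + 1) / A x = A k / A 0 := by
  induction k with
  | zero => simp [hA 0]
  | succ k ih =>
    rw [prod_range_succ, ih]
    have := hA k; have := hA 0
    field_simp

theorem tele (k : ℕ) (A B : ℕ → ℚ) (hA : ∀ i, A i ≠ 0) (hB : ∀ i, B i ≠ 0) (e : ℤ) :
    (∏ j : Fin k, (A (j + 1) * B j / 3 ^ (j.1 + 1)) ^ e) *
      (∏ j : Fin k, (A j * B j / (2 * 3 ^ j.1)) ^ (-e)) * (A k ^ (-e) * A 0 ^ e)
      = (2 / 3) ^ ((k : ℤ) * e) := by
  rw [← prod_mul_distrib]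
  have h1 : ∀ j : ℕ, (A (j + 1) * B j / 3 ^ (j + 1)) ^ e * (A j * B j / (2 * 3 ^ j)) ^ (-e)
      = (A (j + 1) / A j * (2 / 3)) ^ e := by
    intro j
    rw [zpow_neg, ← inv_zpow, ← mul_zpow]
    congr 1
    have := hA j; have := hB j
    field_simp
    ring
  simp only [h1]
  rw [Fin.prod_univ_eq_prod_range (fun j => (A (j + 1) / A j * (2 / 3)) ^ e) k, prod_zpow,
    prod_mul_distrib, tele0 k A hA, prod_const, card_range, zpow_neg, ← inv_zpow, ← mul_zpow,
    ← mul_zpow, zpow_mul, zpow_natCast]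
  congr 1
  have := hA k; have := hA 0
  field_simp

theorem prod_pathEl (k m : ℕ) (A B : ℕ → ℚ) (c : Fin m → ℚ)
    (l : (Fin k ⊕ Fin k) ⊕ (Bool ⊕ Fin m) → ℤ) :
    ∏ i, pathEl k m A B c i ^ l i =
      (∏ j : Fin k, (A (j + 1) * B j / 3 ^ (j.1 + 1)) ^ l (Sum.inl (Sum.inl j))) *
      (∏ j : Fin k, (A j * B j / (2 * 3 ^ j.1)) ^ l (Sum.inl (Sum.inr j))) *
      (A k ^ l (Sum.inr (Sum.inl true)) * A 0 ^ l (Sum.inr (Sum.inl false))) *
      ∏ i, c i ^ l (Sum.inr (Sum.inr i)) := by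
  simp only [Fintype.prod_sum_type, Fintype.prod_bool, pathEl]
  ring

theorem pathEl_ne (k m : ℕ) (A B : ℕ → ℚ) (c : Fin m → ℚ) (hA : ∀ i, A i ≠ 0)
    (hB : ∀ i, B i ≠ 0) (hc : ∀ i, c i ≠ 0) (i) : pathEl k m A B c i ≠ 0 := by
  rcases i with (j | j) | ((_ | _) | i)
  · have := hA (j + 1); have := hB j
    simp only [pathEl]; positivity
  · have := hA j; have := hB j
    simp only [pathEl]; positivity
  · exact hA 0
  · exact hA k
  · exact hc i

theorem val_pathEl (k m : ℕ) (A B : ℕ → ℚ) (c : Fin m → ℚ) (hA : ∀ i, A i ≠ 0)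
    (hB : ∀ i, B i ≠ 0) (hc : ∀ i, c i ≠ 0)
    (l : (Fin k ⊕ Fin k) ⊕ (Bool ⊕ Fin m) → ℤ) (hl : ∏ i, pathEl k m A B c i ^ l i = 1)
    (φ : ℚ → ℤ) (hφ : IsVal φ) (h2 : φ 2 = 0) (h3 : φ 3 = 0) (h4 : ∀ i, φ (c i) = 0) :
    (∑ j : Fin k, l (Sum.inl (Sum.inl j)) * (φ (A (j + 1)) + φ (B j))) +
    (∑ j : Fin k, l (Sum.inl (Sum.inr j)) * (φ (A j) + φ (B j))) +
    l (Sum.inr (Sum.inl true)) * φ (A k) + l (Sum.inr (Sum.inl false)) * φ (A 0) = 0 := by
  have h := hφ.rel (pathEl_ne k m A B c hA hB hc) hl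
  simp only [Fintype.sum_sum_type, Fintype.sum_bool, pathEl, h4, mul_zero, sum_const_zero,
    add_zero] at h
  have g1 : ∀ j : ℕ, φ (A (j + 1) * B j / 3 ^ (j + 1)) = φ (A (j + 1)) + φ (B j) := by
    intro j
    rw [hφ.div (mul_ne_zero (hA _) (hB _)) (by positivity), hφ _ _ (hA _) (hB _),
      hφ.pow (by norm_num), h3]
    ring
  have g2 : ∀ j : ℕ, φ (A j * B j / (2 * 3 ^ j)) = φ (A j) + φ (B j) := by
    intro j
    rw [hφ.div (mul_ne_zero (hA _) (hB _)) (by positivity), hφ _ _ (hA _) (hB _),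
      hφ 2 _ (by norm_num) (by positivity), hφ.pow (by norm_num), h3, h2]
    ring
  simp only [g1, g2] at h
  linarith

theorem path_circ (k m : ℕ) (hk : 1 ≤ k) (A B : ℕ → ℚ) (c : Fin m → ℚ) (hA : ∀ i, A i ≠ 0)
    (hB : ∀ i, B i ≠ 0) (hc : ∀ i, c i ≠ 0)
    (hpA : ∀ i, i ≤ k → ∃ φ : ℚ → ℤ, IsVal φ ∧ φ 2 = 0 ∧ φ 3 = 0 ∧ (∀ i, φ (c i) = 0) ∧
      φ (A i) ≠ 0 ∧ (∀ i', i' ≤ k → i' ≠ i → φ (A i') = 0) ∧ ∀ j, j < k → φ (B j) = 0)
    (hpB : ∀ j, j < k → ∃ φ : ℚ → ℤ, IsVal φ ∧ φ 2 = 0 ∧ φ 3 = 0 ∧ (∀ i, φ (c i) = 0) ∧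
      φ (B j) ≠ 0 ∧ (∀ i', i' ≤ k → φ (A i') = 0) ∧ ∀ j', j' < k → j' ≠ j → φ (B j') = 0)
    (hc1 : ∃ (e : ℤ) (γ : Fin m → ℤ), e ≠ 0 ∧ (∀ i, γ i ≠ 0) ∧ (2 / 3 : ℚ) ^ e * ∏ i, c i ^ γ i = 1)
    (hc2 : ∀ (e : ℤ) (γ : Fin m → ℤ), (2 / 3 : ℚ) ^ e * ∏ i, c i ^ γ i = 1 →
      (e = 0 ∨ ∃ i, γ i = 0) → e = 0 ∧ ∀ i, γ i = 0) :
    Circ (pathEl k m A B c) := by
  constructor
  · obtain ⟨e, γ, he, hγ, h⟩ := hc1
    refine ⟨fun i => match i with
      | Sum.inl (Sum.inl _) => e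
      | Sum.inl (Sum.inr _) => -e
      | Sum.inr (Sum.inl false) => e
      | Sum.inr (Sum.inl true) => -e
      | Sum.inr (Sum.inr i) => k * γ i, ?_, ?_⟩
    · intro i
      rcases i with (j | j) | ((_ | _) | i)
      · exact he
      · exact neg_ne_zero.2 he
      · exact he
      · exact neg_ne_zero.2 he
      · exact mul_ne_zero (by omega) (hγ i)
    · rw [prod_pathEl]
      simp only []
      rw [tele k A B hA hB e]
      have : ∀ i, c i ^ ((k : ℤ) * γ i) = (c i ^ γ i) ^ (k : ℤ) := by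
        intro i; rw [mul_comm, zpow_mul]
      simp only [this]
      rw [prod_zpow, mul_comm (k : ℤ) e, zpow_mul, ← mul_zpow, h, one_zpow]
  · intro l hl hz
    have hv := val_pathEl k m A B c hA hB hc l hl
    -- f j = - e j
    have hf : ∀ j : Fin k, l (Sum.inl (Sum.inr j)) = - l (Sum.inl (Sum.inl j)) := by
      intro j
      obtain ⟨φ, h1, h2, h3, h4, h5, h6, h7⟩ := hpB j j.2
      have h := hv φ h1 h2 h3 h4
      rw [sum_eq_single j, sum_eq_single j, h6 k le_rfl, h6 0 (by omega), h6 (j + 1) j.2,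
        h6 j j.2.le] at h
      · have : (l (Sum.inl (Sum.inl j)) + l (Sum.inl (Sum.inr j))) * φ (B j) = 0 := by linarith
        rcases mul_eq_zero.1 this with h | h
        · linarith
        · exact absurd h h5
      · intro b _ hb
        rw [h6 b b.2.le, h7 b b.2 (fun h => hb (Fin.ext h))]; simp
      · simp
      · intro b _ hb
        rw [h6 (b + 1) b.2, h7 b b.2 (fun h => hb (Fin.ext h))]; simp
      · simp
    set e := l (Sum.inr (Sum.inl false)) with he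
    have hstep : ∀ i, ∀ hi : i < k, l (Sum.inl (Sum.inl ⟨i, hi⟩)) = e := by
      intro i
      induction i with
      | zero =>
        intro hi
        obtain ⟨φ, h1, h2, h3, h4, h5, h6, h7⟩ := hpA 0 (by omega)
        have h := hv φ h1 h2 h3 h4
        rw [sum_eq_zero, sum_eq_single (⟨0, hi⟩ : Fin k), h6 k le_rfl (by omega), hf] at h
        · simp only [h7 0 hi] at h
          have : (e - l (Sum.inl (Sum.inl ⟨0, hi⟩))) * φ (A 0) = 0 := by linarith
          rcases mul_eq_zero.1 this with h | h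
          · linarith
          · exact absurd h h5
        · intro b _ hb
          rw [h6 b b.2.le (fun h => hb (Fin.ext h)), h7 b b.2]; simp
        · simp
        · intro b _
          rw [h6 (b + 1) b.2 (by omega), h7 b b.2]; simp
      | succ i ih =>
        intro hi
        obtain ⟨φ, h1, h2, h3, h4, h5, h6, h7⟩ := hpA (i + 1) (by omega)
        have h := hv φ h1 h2 h3 h4
        rw [sum_eq_single (⟨i, by omega⟩ : Fin k), sum_eq_single (⟨i + 1, hi⟩ : Fin k),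
          h6 k le_rfl (by omega), h6 0 (by omega) (by omega), hf, ih] at h
        · simp only [h7 i (by omega), h7 (i + 1) hi] at h
          have : (e - l (Sum.inl (Sum.inl ⟨i + 1, hi⟩))) * φ (A (i + 1)) = 0 := by linarith
          rcases mul_eq_zero.1 this with h | h
          · linarith
          · exact absurd h h5
        · intro b _ hb
          rw [h6 b b.2.le (fun h => hb (Fin.ext h)), h7 b b.2]; simp
        · simp
        · intro b _ hb
          rw [h6 (b + 1) b.2 (fun h => hb (Fin.ext (by simpa using h))), h7 b b.2]; simp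
        · simp
    have hE : ∀ j : Fin k, l (Sum.inl (Sum.inl j)) = e := fun j => hstep j.1 j.2
    have hF : ∀ j : Fin k, l (Sum.inl (Sum.inr j)) = -e := fun j => by rw [hf, hE]
    have hlast : l (Sum.inr (Sum.inl true)) = -e := by
      obtain ⟨φ, h1, h2, h3, h4, h5, h6, h7⟩ := hpA k le_rfl
      have h := hv φ h1 h2 h3 h4
      rw [sum_eq_single (⟨k - 1, by omega⟩ : Fin k), sum_eq_zero,
        h6 0 (by omega) (by omega), hE] at h
      · simp only [h7 (k - 1) (by omega), Nat.sub_add_cancel hk] at h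
        have : (e + l (Sum.inr (Sum.inl true))) * φ (A k) = 0 := by linarith
        rcases mul_eq_zero.1 this with h | h
        · linarith
        · exact absurd h h5
      · intro b _
        rw [h6 b b.2.le b.2.ne, h7 b b.2]; simp
      · intro b _ hb
        rw [h6 (b + 1) b.2 (fun h => hb (Fin.ext (by simp; omega))), h7 b b.2]; simp
      · simp
    rw [prod_pathEl] at hl
    simp only [hE, hF, hlast] at hl
    rw [← he, tele k A B hA hB e] at hl
    have hfin := hc2 _ _ hl (by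
      obtain ⟨i, hi⟩ := hz
      rcases i with (j | j) | ((_ | _) | i)
      · left; rw [hE] at hi; rw [hi]; simp
      · left; rw [hF, neg_eq_zero] at hi; rw [hi]; simp
      · left; rw [← he] at hi; rw [hi]; simp
      · left; rw [hlast, neg_eq_zero] at hi; rw [hi]; simp
      · right; exact ⟨i, hi⟩)
    have he0 : e = 0 := by
      rcases mul_eq_zero.1 hfin.1 with h | h
      · omega
      · exact h
    intro i
    rcases i with (j | j) | ((_ | _) | i)
    · rw [hE, he0]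
    · rw [hF, he0]; simp
    · exact he0
    · rw [hlast, he0]; simp
    · exact hfin.2 i

end Pool.Agent.H.MP_db38ce_nt
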