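import Pool.Agent.H.MP_db38ce_nt.B

namespace Pool.Agent.H.MP_db38ce_nt

open Finset

theorem val_small (p : ℕ) (hp : p.Prime) : ∃ φ : ℚ → ℤ, IsVal φ ∧ φ p ≠ 0 ∧
    ∀ q : ℕ, ¬ p ∣ q → φ q = 0 :=
  ⟨padicValRat p, isVal_padic p hp, padic_ne p hp p hp.ne_zero dvd_rfl, fun q h => padic_zero p q h⟩

theorem v2 : ∃ φ : ℚ → ℤ, IsVal φ ∧ φ 2 ≠ 0 ∧ φ 3 = 0 ∧ φ 5 = 0 ∧ φ 7 = 0 := by
  obtain ⟨φ, h1, h2, h3⟩ := val_small 2 (by norm_num)
  exact ⟨φ, h1, by simpa using h2, by simpa using h3 3 (by norm_num),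
    by simpa using h3 5 (by norm_num), by simpa using h3 7 (by norm_num)⟩

theorem v3 : ∃ φ : ℚ → ℤ, IsVal φ ∧ φ 2 = 0 ∧ φ 3 ≠ 0 ∧ φ 5 = 0 ∧ φ 7 = 0 := by
  obtain ⟨φ, h1, h2, h3⟩ := val_small 3 (by norm_num)
  exact ⟨φ, h1, by simpa using h3 2 (by norm_num), by simpa using h2,
    by simpa using h3 5 (by norm_num), by simpa using h3 7 (by norm_num)⟩

theorem v5 : ∃ φ : ℚ → ℤ, IsVal φ ∧ φ 2 = 0 ∧ φ 3 = 0 ∧ φ 5 ≠ 0 ∧ φ 7 = 0 := by
  obtain ⟨φ, h1, h2, h3⟩ := val_small 5 (by norm_num)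
  exact ⟨φ, h1, by simpa using h3 2 (by norm_num), by simpa using h3 3 (by norm_num),
    by simpa using h2, by simpa using h3 7 (by norm_num)⟩

theorem v7 : ∃ φ : ℚ → ℤ, IsVal φ ∧ φ 2 = 0 ∧ φ 3 = 0 ∧ φ 5 = 0 ∧ φ 7 ≠ 0 := by
  obtain ⟨φ, h1, h2, h3⟩ := val_small 7 (by norm_num)
  exact ⟨φ, h1, by simpa using h3 2 (by norm_num), by simpa using h3 3 (by norm_num),
    by simpa using h3 5 (by norm_num), by simpa using h2⟩

theorem IsVal.four {φ : ℚ → ℤ} (h : IsVal φ) : φ 4 = 2 * φ 2 := by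
  have := h 2 2 (by norm_num) (by norm_num)
  norm_num at this; omega
theorem IsVal.six {φ : ℚ → ℤ} (h : IsVal φ) : φ 6 = φ 2 + φ 3 := by
  have := h 2 3 (by norm_num) (by norm_num)
  norm_num at this; omega
theorem IsVal.twenty {φ : ℚ → ℤ} (h : IsVal φ) : φ 20 = 2 * φ 2 + φ 5 := by
  have := h 4 5 (by norm_num) (by norm_num)
  norm_num at this; rw [h.four] at this; omega
theorem IsVal.twentyone {φ : ℚ → ℤ} (h : IsVal φ) : φ 21 = φ 3 + φ 7 := by
  have := h 3 7 (by norm_num) (by norm_num)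
  norm_num at this; omega

theorem val_const {m : ℕ} (c : Fin m → ℚ) (hc : ∀ i, c i ≠ 0) (e : ℤ) (γ : Fin m → ℤ)
    (h : (2 / 3 : ℚ) ^ e * ∏ i, c i ^ γ i = 1) {φ : ℚ → ℤ} (hφ : IsVal φ) :
    e * (φ 2 - φ 3) + ∑ i, γ i * φ (c i) = 0 := by
  have := hφ.one
  rw [← h, hφ _ _ (zpow_ne_zero _ (by norm_num))
    (prod_ne_zero_iff.2 fun j _ => zpow_ne_zero _ (hc j)), hφ.zpow (by norm_num),
    hφ.div (by norm_num) (by norm_num), hφ.prod _ _ hc] at this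
  exact this

def Good {m : ℕ} (c : Fin m → ℚ) : Prop :=
  (∃ (e : ℤ) (γ : Fin m → ℤ), e ≠ 0 ∧ (∀ i, γ i ≠ 0) ∧ (2 / 3 : ℚ) ^ e * ∏ i, c i ^ γ i = 1) ∧
  (∀ (e : ℤ) (γ : Fin m → ℤ), (2 / 3 : ℚ) ^ e * ∏ i, c i ^ γ i = 1 →
      (e = 0 ∨ ∃ i, γ i = 0) → e = 0 ∧ ∀ i, γ i = 0)

theorem cancel {a b : ℤ} (hb : b ≠ 0) (h : a * b = 0) : a = 0 := by
  rcases mul_eq_zero.1 h with h | h
  · exact h
  · exact absurd h hb

theorem good23 : Good ![2, 3] := by
  constructor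
  · refine ⟨1, ![-1, 1], by norm_num, by decide, ?_⟩
    simp [Fin.prod_univ_two]; norm_num
  · intro e γ h hz
    have hv := fun φ hφ => val_const (φ := φ) _ (by decide +kernel) e γ h hφ
    simp only [Fin.sum_univ_two, Matrix.cons_val_zero, Matrix.cons_val_one] at hv
    obtain ⟨φ, h1, h2, h3, -, -⟩ := v2
    have g1 : e + γ 0 = 0 := cancel h2 (by have := hv φ h1; rw [h3] at this; linarith)
    obtain ⟨φ, h1, h2, h3, -, -⟩ := v3
    have g2 : -e + γ 1 = 0 := cancel h3 (by have := hv φ h1; rw [h2] at this; linarith)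
    simp only [Fin.forall_fin_two, Fin.exists_fin_two] at hz ⊢
    omega

theorem good34 : Good ![3, 4] := by
  constructor
  · refine ⟨2, ![2, -1], by norm_num, by decide, ?_⟩
    simp [Fin.prod_univ_two]; norm_num
  · intro e γ h hz
    have hv := fun φ hφ => val_const (φ := φ) _ (by decide +kernel) e γ h hφ
    simp only [Fin.sum_univ_two, Matrix.cons_val_zero, Matrix.cons_val_one] at hv
    obtain ⟨φ, h1, h2, h3, -, -⟩ := v2
    have g1 : e + 2 * γ 1 = 0 := cancel h2 (by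
      have := hv φ h1; rw [h1.four, h3] at this; linarith)
    obtain ⟨φ, h1, h2, h3, -, -⟩ := v3
    have g2 : -e + γ 0 = 0 := cancel h3 (by
      have := hv φ h1; rw [h1.four, h2] at this; linarith)
    simp only [Fin.forall_fin_two, Fin.exists_fin_two] at hz ⊢
    omega

theorem good5 : Good ![5, 6, 20] := by
  constructor
  · refine ⟨1, ![1, 1, -1], by norm_num, by decide, ?_⟩
    simp [Fin.prod_univ_three]; norm_num
  · intro e γ h hz
    have hv := fun φ hφ => val_const (φ := φ) _ (by decide +kernel) e γ h hφ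
    simp only [Fin.sum_univ_three, Matrix.cons_val_zero, Matrix.cons_val_one,
      Matrix.cons_val] at hv
    obtain ⟨φ, h1, h2, h3, h5, -⟩ := v2
    have g1 : e + γ 1 + 2 * γ 2 = 0 := cancel h2 (by
      have := hv φ h1; rw [h1.six, h1.twenty, h3, h5] at this; linarith)
    obtain ⟨φ, h1, h2, h3, h5, -⟩ := v3
    have g2 : -e + γ 1 = 0 := cancel h3 (by
      have := hv φ h1; rw [h1.six, h1.twenty, h2, h5] at this; linarith)
    obtain ⟨φ, h1, h2, h3, h5, -⟩ := v5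
    have g3 : γ 0 + γ 2 = 0 := cancel h5 (by
      have := hv φ h1; rw [h1.six, h1.twenty, h2, h3] at this; linarith)
    simp only [Fin.forall_fin_succ, Fin.exists_fin_succ] at hz ⊢
    simp at hz ⊢
    omega

theorem good6 : Good ![6, 7, 21] := by
  constructor
  · refine ⟨1, ![-1, -2, 2], by norm_num, by decide, ?_⟩
    simp [Fin.prod_univ_three]; norm_num
  · intro e γ h hz
    have hv := fun φ hφ => val_const (φ := φ) _ (by decide +kernel) e γ h hφ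
    simp only [Fin.sum_univ_three, Matrix.cons_val_zero, Matrix.cons_val_one,
      Matrix.cons_val] at hv
    obtain ⟨φ, h1, h2, h3, -, h7⟩ := v2
    have g1 : e + γ 0 = 0 := cancel h2 (by
      have := hv φ h1; rw [h1.six, h1.twentyone, h3, h7] at this; linarith)
    obtain ⟨φ, h1, h2, h3, -, h7⟩ := v3
    have g2 : -e + γ 0 + γ 2 = 0 := cancel h3 (by
      have := hv φ h1; rw [h1.six, h1.twentyone, h2, h7] at this; linarith)
    obtain ⟨φ, h1, h2, h3, -, h7⟩ := v7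
    have g3 : γ 1 + γ 2 = 0 := cancel h7 (by
      have := hv φ h1; rw [h1.six, h1.twentyone, h2, h3] at this; linarith)
    simp only [Fin.forall_fin_succ, Fin.exists_fin_succ] at hz ⊢
    simp at hz ⊢
    omega

/-- offsets -/
def hh (k j : ℕ) : ℕ := (3 ^ (k + 1) - 3 ^ j) / 2

theorem hh_spec (k j : ℕ) (hj : j ≤ k + 1) : 2 * hh k j + 3 ^ j = 3 ^ (k + 1) := by
  have h1 : 3 ^ j % 2 = 1 := by rw [Nat.pow_mod]; simp
  have h2 : 3 ^ (k + 1) % 2 = 1 := by rw [Nat.pow_mod]; simp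
  have h3 : 3 ^ j ≤ 3 ^ (k + 1) := Nat.pow_le_pow_right (by norm_num) hj
  unfold hh
  omega

theorem hh_dvd (k j : ℕ) (hj : j ≤ k + 1) : 3 ^ j ∣ hh k j := by
  have h1 := hh_spec k j hj
  have h2 : 3 ^ j ∣ 2 * hh k j + 3 ^ j := by rw [h1]; exact pow_dvd_pow _ hj
  have h3 : 3 ^ j ∣ 2 * hh k j := (Nat.dvd_add_left dvd_rfl).1 h2
  exact Nat.Coprime.dvd_of_dvd_mul_left (Nat.Coprime.pow_left _ (by norm_num)) h3

theorem path_circ' (k m K T : ℕ) (hk : 1 ≤ k) (hP : Priv K T) (hT : 0 < T) (hK : 3 ≤ K)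
    (uA uB : ℕ → ℕ) (c : Fin m → ℕ)
    (hA : ∀ i, i ≤ k → 1 ≤ uA i ∧ uA i ≤ K) (hB : ∀ j, j < k → 1 ≤ uB j ∧ uB j ≤ K)
    (hAA : ∀ i i', i ≤ k → i' ≤ k → uA i = uA i' → i = i')
    (hBB : ∀ i i', i < k → i' < k → uB i = uB i' → i = i')
    (hAB : ∀ i i', i ≤ k → i' < k → uA i ≠ uB i')
    (hc : ∀ i, 1 ≤ c i ∧ c i ≤ K) (hg : Good (fun i => (c i : ℚ))) :
    Circ (pathEl k m (fun i => ((T + uA i : ℕ) : ℚ)) (fun i => ((T + uB i : ℕ) : ℚ))
      (fun i => (c i : ℚ))) := by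
  refine path_circ k m hk _ _ _ (fun i => by positivity) (fun i => by positivity)
    (fun i => by have := (hc i).1; positivity) ?_ ?_ hg.1 hg.2
  · intro i hi
    obtain ⟨φ, h1, h2, h3, h4⟩ := hP (uA i) (hA i hi).1 (hA i hi).2
    refine ⟨φ, h1, by simpa using h4 2 (by omega) (by omega),
      by simpa using h4 3 (by omega) (by omega), fun i => h4 _ (hc i).1 (hc i).2, h2, ?_, ?_⟩
    · intro i' g1 g2
      exact h3 _ (hA i' g1).1 (hA i' g1).2 (fun h => g2 (hAA _ _ g1 hi h))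
    · intro j g1
      exact h3 _ (hB j g1).1 (hB j g1).2 (fun h => hAB _ _ hi g1 h.symm)
  · intro i hi
    obtain ⟨φ, h1, h2, h3, h4⟩ := hP (uB i) (hB i hi).1 (hB i hi).2
    refine ⟨φ, h1, by simpa using h4 2 (by omega) (by omega),
      by simpa using h4 3 (by omega) (by omega), fun i => h4 _ (hc i).1 (hc i).2, h2, ?_, ?_⟩
    · intro i' g1
      exact h3 _ (hA i' g1).1 (hA i' g1).2 (hAB _ _ g1 hi)
    · intro j g1 g2
      exact h3 _ (hB j g1).1 (hB j g1).2 (fun h => g2 (hBB _ _ g1 hi h))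

end Pool.Agent.H.MP_db38ce_nt
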