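import Pool.Agent.H.MP_db38ce_nt.C

namespace Pool.Agent.H.MP_db38ce_nt

open Finset

def Fam (ι : Type) [Fintype ι] : Prop :=
  ∃ G : ℕ → ι → ℚ, (∀ s i, ∃ z : ℕ, 0 < z ∧ G s i = z) ∧ (∀ s, Circ (G s)) ∧
    (∀ s, Circ (fun i => G s i + 1)) ∧ Function.Injective G

theorem Fam.equiv {ι κ : Type} [Fintype ι] [Fintype κ] (h : Fam ι) (e : κ ≃ ι) : Fam κ := by
  obtain ⟨G, h1, h2, h3, h4⟩ := h
  refine ⟨fun s j => G s (e j), fun s j => h1 s _, fun s => (h2 s).equiv e,
    fun s => (h3 s).equiv e, ?_⟩
  intro s s' hs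
  apply h4
  funext i
  simpa using congrFun hs (e.symm i)

theorem T_inj (K : ℕ) (s s' : ℕ)
    (h : K.factorial * K.factorial * (s + 1) = K.factorial * K.factorial * (s' + 1)) : s = s' := by
  have hK : 0 < K.factorial := Nat.factorial_pos K
  have := Nat.eq_of_mul_eq_mul_left (by positivity) h
  omega

theorem exT (K : ℕ) : ∃ T : ℕ → ℕ, (∀ s, 0 < T s) ∧ (∀ s, Priv K (T s)) ∧
    (∀ s d, 1 ≤ d → d ≤ K → d ∣ T s) ∧ Function.Injective T := by
  have hK : 0 < K.factorial := Nat.factorial_pos K
  refine ⟨fun s => K.factorial * K.factorial * (s + 1), fun s => by positivity, priv K, ?_,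
    fun s s' h => T_inj K s s' h⟩
  intro s d h1 h2
  exact ((Nat.dvd_factorial h1 h2).mul_right _).mul_right _

theorem fam_path (k m : ℕ) (hk : 1 ≤ k) (c : Fin m → ℕ) (hc : ∀ i, 1 ≤ c i ∧ c i ≤ 20)
    (hg : Good (fun i => (c i : ℚ))) (hg' : Good (fun i => ((c i + 1 : ℕ) : ℚ))) :
    Fam ((Fin k ⊕ Fin k) ⊕ (Bool ⊕ Fin m)) := by
  obtain ⟨K, hK⟩ : ∃ K, K = 3 ^ (k + 1) + 21 := ⟨_, rfl⟩
  obtain ⟨T, hT0, hTP, hTd, hTi⟩ := exT K
  have hs := hh_spec k
  have hpos : ∀ j : ℕ, 1 ≤ 3 ^ j := fun j => Nat.one_le_pow _ _ (by norm_num)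
  have hlt : ∀ j, j ≤ k → 3 * 3 ^ j ≤ 3 ^ (k + 1) := fun j hj => by
    rw [← pow_succ']; exact Nat.pow_le_pow_right (by norm_num) (by omega)
  have hinj : ∀ i j : ℕ, 3 ^ i = 3 ^ j → i = j := fun i j h =>
    Nat.pow_right_injective (by norm_num : 2 ≤ 3) h
  have hN := hpos k
  have hdT : ∀ s j, j ≤ k + 1 → 3 ^ j ∣ T s := by
    intro s j hj
    have h1 : 3 ^ j ≤ 3 ^ (k + 1) := Nat.pow_le_pow_right (by norm_num) hj
    exact hTd s _ (hpos j) (by omega)
  refine ⟨fun s => pathEl k m
      (fun i => ((T s + hh k i : ℕ) : ℚ))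
      (fun j => ((T s + (hh k (j + 1) + 3 ^ (j + 1) + 1) : ℕ) : ℚ))
      (fun i => (c i : ℚ)), ?_, ?_, ?_, ?_⟩
  · intro s i
    have hT := hT0 s
    have hd := hdT s
    rcases i with (j | j) | ((_ | _) | i)
    · have hj := j.2
      obtain ⟨x, hx⟩ := dvd_add (hd (j + 1) (by omega)) (hh_dvd k (j + 1) (by omega))
      have hx0 : 0 < x := by
        rcases Nat.eq_zero_or_pos x with h | h
        · rw [h] at hx; omega
        · exact h
      refine ⟨x * (T s + (hh k (j + 1) + 3 ^ (j.1 + 1) + 1)), by positivity, ?_⟩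
      simp only [pathEl]
      rw [hx]
      push_cast
      field_simp
    · have hj := j.2
      obtain ⟨x, hx⟩ := dvd_add (hd j (by omega)) (hh_dvd k j (by omega))
      have hx0 : 0 < x := by
        rcases Nat.eq_zero_or_pos x with h | h
        · rw [h] at hx; omega
        · exact h
      have h1 := hs j (by omega)
      have h2 := hs (j + 1) (by omega)
      have h3 : T s + (hh k (j + 1) + 3 ^ (j.1 + 1) + 1) = 3 ^ j.1 * x + 2 * 3 ^ j.1 + 1 := by
        rw [pow_succ] at h2 ⊢
        omega
      have h4 : 2 ∣ x * (3 ^ j.1 * x + 2 * 3 ^ j.1 + 1) := by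
        have h5 : 3 ^ j.1 % 2 = 1 := by rw [Nat.pow_mod]; simp
        rcases Nat.mod_two_eq_zero_or_one x with h | h
        · exact Dvd.dvd.mul_right (by omega) _
        · apply Dvd.dvd.mul_left
          have : (3 ^ j.1 * x) % 2 = 1 := by rw [Nat.mul_mod, h5, h]
          omega
      obtain ⟨y, hy⟩ := h4
      have hy0 : 0 < y := by
        have : 0 < x * (3 ^ j.1 * x + 2 * 3 ^ j.1 + 1) := by positivity
        omega
      refine ⟨y, hy0, ?_⟩
      simp only [pathEl]
      rw [hx, h3]
      have hy' : (x : ℚ) * (3 ^ j.1 * x + 2 * 3 ^ j.1 + 1) = 2 * y := by exact_mod_cast hy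
      push_cast
      field_simp
      linarith
    · exact ⟨_, by omega, rfl⟩
    · exact ⟨_, by omega, rfl⟩
    · exact ⟨_, (hc i).1, rfl⟩
  · intro s
    refine path_circ' k m K _ hk (hTP s) (hT0 s) (by omega) (hh k)
      (fun j => hh k (j + 1) + 3 ^ (j + 1) + 1) c ?_ ?_ ?_ ?_ ?_ ?_ hg
    · intro i hi
      have := hs i (by omega); have := hlt i hi; have := hpos i
      omega
    · intro j hj
      have := hs (j + 1) (by omega); have := hlt (j + 1) hj; have := hpos (j + 1)
      omega
    · intro i i' h1 h2 h3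
      have := hs i (by omega); have := hs i' (by omega)
      exact hinj _ _ (by omega)
    · intro i i' h1 h2 h3
      have := hs (i + 1) (by omega); have := hs (i' + 1) (by omega)
      have := hinj (i + 1) (i' + 1) (by omega)
      omega
    · intro i i' h1 h2
      have := hs i (by omega); have := hs (i' + 1) (by omega)
      have := hpos i; have := hpos (i' + 1)
      omega
    · intro i
      have := hc i
      omega
  · intro s
    have key := path_circ' k m K _ hk (hTP s) (hT0 s) (by omega) (fun i => hh k i + 1)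
      (fun j => hh k (j + 1) + 3 ^ (j + 1)) (fun i => c i + 1) ?_ ?_ ?_ ?_ ?_ ?_ hg'
    · convert key using 1
      funext i
      rcases i with (j | j) | ((_ | _) | i)
      · simp only [pathEl]
        push_cast
        field_simp
        ring
      · simp only [pathEl]
        have hj := j.2
        have h1 := hs j (by omega)
        have h2 := hs (j + 1) (by omega)
        have h3 : hh k (j + 1) + 3 ^ (j.1 + 1) = hh k j + 2 * 3 ^ j.1 := by
          rw [pow_succ] at h2 ⊢
          omega
        rw [h3]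
        push_cast
        field_simp
        ring
      · simp only [pathEl]; push_cast; ring
      · simp only [pathEl]; push_cast; ring
      · simp only [pathEl]; push_cast; ring
    · intro i hi
      have := hs i (by omega); have := hlt i hi; have := hpos i
      omega
    · intro j hj
      have := hs (j + 1) (by omega); have := hlt (j + 1) hj; have := hpos (j + 1)
      omega
    · intro i i' h1 h2 h3
      have := hs i (by omega); have := hs i' (by omega)
      exact hinj _ _ (by omega)
    · intro i i' h1 h2 h3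
      have := hs (i + 1) (by omega); have := hs (i' + 1) (by omega)
      have := hinj (i + 1) (i' + 1) (by omega)
      omega
    · intro i i' h1 h2
      have := hs i (by omega); have := hs (i' + 1) (by omega)
      have := hpos i; have := hpos i'
      have : 3 ^ (i' + 1) = 3 * 3 ^ i' := pow_succ' _ _
      omega
    · intro i
      have := hc i
      omega
  · intro s s' h
    have h1 := congrFun h (Sum.inr (Sum.inl false))
    simp only [pathEl] at h1
    have h2 := Nat.cast_injective h1
    exact hTi (by omega)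

theorem fam_even (k : ℕ) (hk : 1 ≤ k) : Fam (Fin (2 * k + 4)) := by
  have h := fam_path k 2 hk ![2, 3] (by decide) (by
    convert good23 using 1; funext i; fin_cases i <;> simp) (by
    convert good34 using 1; funext i; fin_cases i <;> simp <;> norm_num)
  exact h.equiv (Fintype.equivFinOfCardEq (by simp; omega)).symm

theorem fam_odd (k : ℕ) (hk : 1 ≤ k) : Fam (Fin (2 * k + 5)) := by
  have h := fam_path k 3 hk ![5, 6, 20] (by decide) (by
    convert good5 using 1; funext i; fin_cases i <;> simp) (by
    convert good6 using 1; funext i; fin_cases i <;> simp <;> norm_num)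
  exact h.equiv (Fintype.equivFinOfCardEq (by simp; omega)).symm

end Pool.Agent.H.MP_db38ce_nt
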