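import Pool.Agent.H.MP_db38ce_nt.D

namespace Pool.Agent.H.MP_db38ce_nt

open Finset

theorem circ4a (A B : ℚ) (hA : A ≠ 0) (hB : B ≠ 0)
    (h1 : ∃ φ, IsVal φ ∧ φ A ≠ 0 ∧ φ B = 0 ∧ φ 2 = 0)
    (h2 : ∃ φ, IsVal φ ∧ φ A = 0 ∧ φ B ≠ 0 ∧ φ 2 = 0) :
    Circ ![A / 4, A / 2, A * B / 2, A * B ^ 2 / 4] := by
  constructor
  · refine ⟨![-1, 2, -2, 1], by decide, ?_⟩
    simp [Fin.prod_univ_four]
    field_simp
  · intro k hk hz
    have hne : ∀ i, ![A / 4, A / 2, A * B / 2, A * B ^ 2 / 4] i ≠ 0 := by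
      intro i; fin_cases i <;> simp [hA, hB]
    have hv : ∀ φ, IsVal φ → k 0 * (φ A - 2 * φ 2) + k 1 * (φ A - φ 2) +
        k 2 * (φ A + φ B - φ 2) + k 3 * (φ A + 2 * φ B - 2 * φ 2) = 0 := by
      intro φ hφ
      have := hφ.rel hne hk
      simp only [Fin.sum_univ_four, Matrix.cons_val_zero, Matrix.cons_val_one,
        Matrix.cons_val] at this
      rw [hφ.div hA (by norm_num), hφ.div hA (by norm_num), hφ.div (by positivity) (by norm_num),
        hφ.div (by positivity) (by norm_num), hφ _ _ hA hB, hφ _ _ hA (by positivity),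
        hφ.pow hB, hφ.four] at this
      push_cast at this
      linarith
    obtain ⟨φ, g1, g2, g3, g4⟩ := h1
    have e1 : k 0 + k 1 + k 2 + k 3 = 0 := cancel g2 (by
      have := hv φ g1; rw [g3, g4] at this; linarith)
    obtain ⟨φ, g1, g2, g3, g4⟩ := h2
    have e2 : k 2 + 2 * k 3 = 0 := cancel g3 (by
      have := hv φ g1; rw [g2, g4] at this; linarith)
    obtain ⟨φ, g1, g2, -⟩ := v2
    have e3 : 2 * k 0 + k 1 + k 2 + 2 * k 3 = 0 := cancel g2 (by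
      have := hv φ g1
      linear_combination φ A * e1 + φ B * e2 - this)
    simp only [Fin.forall_fin_succ, Fin.exists_fin_succ] at hz ⊢
    simp at hz ⊢
    omega

theorem circ4b (A B C : ℚ) (hA : A ≠ 0) (hB : B ≠ 0) (hC : C ≠ 0)
    (h1 : ∃ φ, IsVal φ ∧ φ A ≠ 0 ∧ φ B = 0 ∧ φ C = 0 ∧ φ 2 = 0)
    (h2 : ∃ φ, IsVal φ ∧ φ A = 0 ∧ φ B ≠ 0 ∧ φ C = 0 ∧ φ 2 = 0)
    (h3 : ∃ φ, IsVal φ ∧ φ A = 0 ∧ φ B = 0 ∧ φ C ≠ 0 ∧ φ 2 = 0) :
    Circ ![A / 4, B / 2, B * C / 2, A * C ^ 2 / 4] := by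
  constructor
  · refine ⟨![-1, 2, -2, 1], by decide, ?_⟩
    simp [Fin.prod_univ_four]
    field_simp
  · intro k hk hz
    have hne : ∀ i, ![A / 4, B / 2, B * C / 2, A * C ^ 2 / 4] i ≠ 0 := by
      intro i; fin_cases i <;> simp [hA, hB, hC]
    have hv : ∀ φ, IsVal φ → k 0 * (φ A - 2 * φ 2) + k 1 * (φ B - φ 2) +
        k 2 * (φ B + φ C - φ 2) + k 3 * (φ A + 2 * φ C - 2 * φ 2) = 0 := by
      intro φ hφ
      have := hφ.rel hne hk
      simp only [Fin.sum_univ_four, Matrix.cons_val_zero, Matrix.cons_val_one,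
        Matrix.cons_val] at this
      rw [hφ.div hA (by norm_num), hφ.div hB (by norm_num), hφ.div (by positivity) (by norm_num),
        hφ.div (by positivity) (by norm_num), hφ _ _ hB hC, hφ _ _ hA (by positivity),
        hφ.pow hC, hφ.four] at this
      push_cast at this
      linarith
    obtain ⟨φ, g1, g2, g3, g4, g5⟩ := h1
    have e1 : k 0 + k 3 = 0 := cancel g2 (by
      have := hv φ g1; rw [g3, g4, g5] at this; linarith)
    obtain ⟨φ, g1, g2, g3, g4, g5⟩ := h2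
    have e2 : k 1 + k 2 = 0 := cancel g3 (by
      have := hv φ g1; rw [g2, g4, g5] at this; linarith)
    obtain ⟨φ, g1, g2, g3, g4, g5⟩ := h3
    have e3 : k 2 + 2 * k 3 = 0 := cancel g4 (by
      have := hv φ g1; rw [g2, g3, g5] at this; linarith)
    simp only [Fin.forall_fin_succ, Fin.exists_fin_succ] at hz ⊢
    simp at hz ⊢
    omega

theorem circ5 (a b : ℕ) (hab : (a = 1 ∧ b = 2) ∨ (a = 2 ∧ b = 1)) (A B C : ℚ)
    (hA : A ≠ 0) (hB : B ≠ 0) (hC : C ≠ 0)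
    (h1 : ∃ φ, IsVal φ ∧ φ A ≠ 0 ∧ φ B = 0 ∧ φ C = 0 ∧ φ 2 = 0)
    (h2 : ∃ φ, IsVal φ ∧ φ A = 0 ∧ φ B ≠ 0 ∧ φ C = 0 ∧ φ 2 = 0)
    (h3 : ∃ φ, IsVal φ ∧ φ A = 0 ∧ φ B = 0 ∧ φ C ≠ 0 ∧ φ 2 = 0) :
    Circ ![A, B, C, A ^ a * B ^ b / 4, B ^ a * C ^ b / 4] := by
  constructor
  · rcases hab with ⟨rfl, rfl⟩ | ⟨rfl, rfl⟩
    · refine ⟨![-1, -1, 2, 1, -1], by decide, ?_⟩
      simp [Fin.prod_univ_five]
      field_simp
    · refine ⟨![-2, 1, 1, 1, -1], by decide, ?_⟩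
      simp [Fin.prod_univ_five]
      field_simp
  · intro k hk hz
    have hne : ∀ i, ![A, B, C, A ^ a * B ^ b / 4, B ^ a * C ^ b / 4] i ≠ 0 := by
      intro i; fin_cases i <;> simp [hA, hB, hC]
    have hv : ∀ φ, IsVal φ → k 0 * φ A + k 1 * φ B + k 2 * φ C +
        k 3 * (a * φ A + b * φ B - 2 * φ 2) + k 4 * (a * φ B + b * φ C - 2 * φ 2) = 0 := by
      intro φ hφ
      have := hφ.rel hne hk
      simp only [Fin.sum_univ_five, Matrix.cons_val_zero, Matrix.cons_val_one,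
        Matrix.cons_val] at this
      rw [hφ.div (by positivity) (by norm_num),
        hφ.div (by positivity) (by norm_num), hφ _ _ (by positivity) (by positivity),
        hφ _ _ (by positivity) (by positivity),
        hφ.pow hA, hφ.pow hB, hφ.pow hB, hφ.pow hC, hφ.four] at this
      linarith
    obtain ⟨φ, g1, g2, g3, g4, g5⟩ := h1
    have e1 : k 0 + a * k 3 = 0 := cancel g2 (by
      have := hv φ g1; rw [g3, g4, g5] at this; linarith)
    obtain ⟨φ, g1, g2, g3, g4, g5⟩ := h2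
    have e2 : k 1 + b * k 3 + a * k 4 = 0 := cancel g3 (by
      have := hv φ g1; rw [g2, g4, g5] at this; linarith)
    obtain ⟨φ, g1, g2, g3, g4, g5⟩ := h3
    have e3 : k 2 + b * k 4 = 0 := cancel g4 (by
      have := hv φ g1; rw [g2, g3, g5] at this; linarith)
    obtain ⟨φ, g1, g2, -⟩ := v2
    have e4 : 2 * k 3 + 2 * k 4 = 0 := cancel g2 (by
      have := hv φ g1
      linear_combination φ A * e1 + φ B * e2 + φ C * e3 - this)
    simp only [Fin.forall_fin_succ, Fin.exists_fin_succ] at hz ⊢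
    simp at hz ⊢
    rcases hab with ⟨rfl, rfl⟩ | ⟨rfl, rfl⟩ <;> push_cast at e1 e2 e3 <;> omega

theorem Priv.three {T : ℕ} (h : Priv 8 T) (u v w : ℕ) (hu : 1 ≤ u ∧ u ≤ 8) (hv : 1 ≤ v ∧ v ≤ 8)
    (hw : 1 ≤ w ∧ w ≤ 8) (h1 : v ≠ u) (h2 : w ≠ u) :
    ∃ φ : ℚ → ℤ, IsVal φ ∧ φ (T + u) ≠ 0 ∧ φ (T + v) = 0 ∧ φ (T + w) = 0 ∧ φ 2 = 0 := by
  obtain ⟨φ, g1, g2, g3, g4⟩ := h u hu.1 hu.2
  exact ⟨φ, g1, by simpa using g2, by simpa using g3 v hv.1 hv.2 h1,
    by simpa using g3 w hw.1 hw.2 h2, by simpa using g4 2 (by norm_num) (by norm_num)⟩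

theorem fam4 : Fam (Fin 4) := by
  obtain ⟨T, hT0, hTP, hTd, hTi⟩ := exT 8
  refine ⟨fun s => ![(T s + (4 : ℕ)) / 4, (T s + (4 : ℕ)) / 2,
    (T s + (4 : ℕ)) * (T s + (7 : ℕ)) / 2, (T s + (4 : ℕ)) * (T s + (7 : ℕ)) ^ 2 / 4], ?_, ?_, ?_, ?_⟩
  · intro s i
    obtain ⟨x, hx⟩ := hTd s 4 (by norm_num) (by norm_num)
    fin_cases i
    · refine ⟨x + 1, by positivity, ?_⟩
      simp [hx]; ring
    · refine ⟨2 * (x + 1), by positivity, ?_⟩
      simp [hx]; ring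
    · refine ⟨2 * (x + 1) * (4 * x + 7), by positivity, ?_⟩
      simp [hx]; ring
    · refine ⟨(x + 1) * (4 * x + 7) ^ 2, by positivity, ?_⟩
      simp [hx]; ring
  · intro s
    refine circ4a _ _ (by positivity) (by positivity) ?_ ?_
    · obtain ⟨φ, g1, g2, g3, -, g5⟩ := (hTP s).three 4 7 7 (by omega) (by omega) (by omega)
        (by omega) (by omega)
      exact ⟨φ, g1, g2, g3, g5⟩
    · obtain ⟨φ, g1, g2, g3, -, g5⟩ := (hTP s).three 7 4 4 (by omega) (by omega) (by omega)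
        (by omega) (by omega)
      exact ⟨φ, g1, g3, g2, g5⟩
  · intro s
    have key := circ4b (T s + (8 : ℕ)) (T s + (6 : ℕ)) (T s + (5 : ℕ)) (by positivity)
      (by positivity) (by positivity) ?_ ?_ ?_
    · convert key using 1
      funext i
      fin_cases i <;> simp <;> ring
    · exact (hTP s).three 8 6 5 (by omega) (by omega) (by omega) (by omega) (by omega)
    · obtain ⟨φ, g1, g2, g3, g4, g5⟩ := (hTP s).three 6 8 5 (by omega) (by omega) (by omega)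
        (by omega) (by omega)
      exact ⟨φ, g1, g3, g2, g4, g5⟩
    · obtain ⟨φ, g1, g2, g3, g4, g5⟩ := (hTP s).three 5 8 6 (by omega) (by omega) (by omega)
        (by omega) (by omega)
      exact ⟨φ, g1, g3, g4, g2, g5⟩
  · intro s s' h
    have h1 := congrFun h 0
    simp at h1
    exact hTi h1

theorem fam5 : Fam (Fin 5) := by
  obtain ⟨T, hT0, hTP, hTd, hTi⟩ := exT 8
  refine ⟨fun s => ![T s + (1 : ℕ), T s + (4 : ℕ), T s + (7 : ℕ),
    (T s + (1 : ℕ)) ^ 1 * (T s + (4 : ℕ)) ^ 2 / 4,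
    (T s + (4 : ℕ)) ^ 1 * (T s + (7 : ℕ)) ^ 2 / 4], ?_, ?_, ?_, ?_⟩
  · intro s i
    obtain ⟨x, hx⟩ := hTd s 4 (by norm_num) (by norm_num)
    fin_cases i
    · refine ⟨4 * x + 1, by positivity, ?_⟩
      simp [hx]
    · refine ⟨4 * x + 4, by positivity, ?_⟩
      simp [hx]
    · refine ⟨4 * x + 7, by positivity, ?_⟩
      simp [hx]
    · refine ⟨(4 * x + 1) * 4 * (x + 1) ^ 2, by positivity, ?_⟩
      simp [hx]; ring
    · refine ⟨(x + 1) * (4 * x + 7) ^ 2, by positivity, ?_⟩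
      simp [hx]; ring
  · intro s
    refine circ5 1 2 (by omega) _ _ _ (by positivity) (by positivity) (by positivity) ?_ ?_ ?_
    · exact (hTP s).three 1 4 7 (by omega) (by omega) (by omega) (by omega) (by omega)
    · obtain ⟨φ, g1, g2, g3, g4, g5⟩ := (hTP s).three 4 1 7 (by omega) (by omega) (by omega)
        (by omega) (by omega)
      exact ⟨φ, g1, g3, g2, g4, g5⟩
    · obtain ⟨φ, g1, g2, g3, g4, g5⟩ := (hTP s).three 7 1 4 (by omega) (by omega) (by omega)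
        (by omega) (by omega)
      exact ⟨φ, g1, g3, g4, g2, g5⟩
  · intro s
    have key := circ5 2 1 (by omega) (T s + (2 : ℕ)) (T s + (5 : ℕ)) (T s + (8 : ℕ)) (by positivity)
      (by positivity) (by positivity) ?_ ?_ ?_
    · convert key using 1
      funext i
      fin_cases i <;> simp <;> ring
    · exact (hTP s).three 2 5 8 (by omega) (by omega) (by omega) (by omega) (by omega)
    · obtain ⟨φ, g1, g2, g3, g4, g5⟩ := (hTP s).three 5 2 8 (by omega) (by omega) (by omega)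
        (by omega) (by omega)
      exact ⟨φ, g1, g3, g2, g4, g5⟩
    · obtain ⟨φ, g1, g2, g3, g4, g5⟩ := (hTP s).three 8 2 5 (by omega) (by omega) (by omega)
        (by omega) (by omega)
      exact ⟨φ, g1, g3, g4, g2, g5⟩
  · intro s s' h
    have h1 := congrFun h 0
    simp at h1
    exact hTi h1

theorem fam_all (n : ℕ) (hn : 4 ≤ n) : Fam (Fin n) := by
  rcases (by omega : n = 4 ∨ n = 5 ∨ n = 2 * ((n - 4) / 2) + 4 ∧ 6 ≤ n ∨
    n = 2 * ((n - 5) / 2) + 5 ∧ 7 ≤ n) with rfl | rfl | ⟨h, h'⟩ | ⟨h, h'⟩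
  · exact fam4
  · exact fam5
  · rw [h]; exact fam_even _ (by omega)
  · rw [h]; exact fam_odd _ (by omega)

end Pool.Agent.H.MP_db38ce_nt
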